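import Pool.Agent.AT12.Stmts3

/-!
# AT12 row CRG: the elements of the cosets `y ^ j V ^ ℓ`
-/

open scoped BigOperators

noncomputable section

namespace Pool.Agent.PP.T12.H67

open Pool.Agent.Helper51_AWC Pool.Agent.Helper79_WRA Pool.Agent.PP Pool.Agent.PP.KF
open Pool.Agent.PP.K9 Pool.Agent.PP.K9.H97 Pool.Agent.PP.H75 Pool.Agent.PP.T3 Pool.Agent.PP.T2
open Pool.Agent.PP.T8 Pool.Agent.PP.T12

attribute [local instance] Ideal.Quotient.field

theorem pow_modEq {G : Type} [Group G] {x : G} {n a b : ℕ} (hx : orderOf x = n)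
    (h : a ≡ b [MOD n]) : x ^ a = x ^ b := by
  rw [pow_eq_pow_iff_modEq, hx]
  exact h

theorem modEq_pow {G : Type} [Group G] {x : G} {n a b : ℕ} (hx : orderOf x = n)
    (h : x ^ a = x ^ b) : a ≡ b [MOD n] := by
  rw [pow_eq_pow_iff_modEq, hx] at h
  exact h

theorem part2 {ℓ : ℕ} [Fact ℓ.Prime] {F : Type} [Field F] {G : Type} [Group G] {V : Subgroup G}
    {γ : G → F} (hab : ∀ a ∈ V, ∀ b ∈ V, a * b = b * a) {y w : G} {m : ℕ}
    (hC : Cs ℓ V γ y w m) (j j' k k' : ℕ) (hj : ¬ ℓ ∣ j) (hjj : j ≡ j' [MOD ℓ]) (t : G)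
    (ht : t ∈ Tg V γ)
    (he : t * (y ^ j * w ^ (ℓ * k)) * t⁻¹ = y ^ j' * w ^ (ℓ * k')) :
    t * y = y * t ∧ j ≡ j' [MOD ℓ ^ 2] ∧ (ℓ ∣ k ↔ ℓ ∣ k') := by
  have hp : ℓ.Prime := Fact.out
  have hN : t ∈ Subgroup.normalizer (V : Set G) := ht.1
  have hcop : Nat.Coprime j (ℓ ^ 2) :=
    Nat.Coprime.pow_right 2 (Nat.Coprime.symm ((Nat.Prime.coprime_iff_not_dvd hp).2 hj))
  obtain ⟨c, -, hc⟩ := Nat.exists_mul_mod_eq_one_of_coprime hcop (by
    have := hp.two_le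
    nlinarith [this])
  have h1lt : 1 < ℓ ^ 2 := by
    have := hp.two_le
    nlinarith [this]
  have hc1 : j * c ≡ 1 [MOD ℓ ^ 2] := by
    unfold Nat.ModEq
    rw [hc, Nat.mod_eq_of_lt h1lt]
  have hc2 : j' * c ≡ 1 [MOD ℓ] := by
    have a1 : j * c ≡ 1 [MOD ℓ] := hc1.of_dvd (dvd_pow_self ℓ (by norm_num))
    exact (hjj.symm.mul_right c).trans a1
  have hpos : 1 ≤ j' * c := by
    rcases Nat.eq_zero_or_pos (j' * c) with h0 | h0
    · rw [h0] at hc2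
      have := hc2.symm
      have h3 : ℓ ∣ 1 := (Nat.modEq_zero_iff_dvd).1 this
      exact absurd (Nat.dvd_one.1 h3) hp.one_lt.ne'
    · exact h0
  obtain ⟨i, hi⟩ : ∃ i, j' * c = 1 + ℓ * i := by
    have : ℓ ∣ j' * c - 1 := (Nat.modEq_iff_dvd' hpos).1 hc2.symm
    obtain ⟨i, hi⟩ := this
    exact ⟨i, by omega⟩
  have hyw : Commute y w := hab y hC.yV w hC.wV
  -- the conjugate of a power of `w`
  have hwV : t * w ^ (k * c) * t⁻¹ ∈ V := by
    have := (Subgroup.mem_normalizer_iff.1 hN (w ^ (k * c))).1 (V.pow_mem hC.wV _)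
    exact this
  have hu : (y ^ j * w ^ (ℓ * k)) ^ c = y * (w ^ (k * c)) ^ ℓ := by
    rw [(hyw.pow_pow j (ℓ * k)).mul_pow, ← pow_mul, ← pow_mul, ← pow_mul,
      pow_modEq hC.oy hc1, pow_one]
    congr 2
    ring
  have hu' : (y ^ j' * w ^ (ℓ * k')) ^ c = y * (y ^ i) ^ ℓ * (w ^ (k' * c)) ^ ℓ := by
    rw [(hyw.pow_pow j' (ℓ * k')).mul_pow, ← pow_mul, ← pow_mul, ← pow_mul, ← pow_mul, hi, pow_add,
      pow_one]
    congr 2
    · congr 1
      ring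
    · ring
  have key : t * (y * (w ^ (k * c)) ^ ℓ) * t⁻¹ = y * (y ^ i) ^ ℓ * (w ^ (k' * c)) ^ ℓ := by
    rw [← hu, ← hu', ← he]
    exact (conj_pow).symm
  have key2 : t * y * t⁻¹ = y * ((y ^ i) * (w ^ (k' * c)) * (t * w ^ (k * c) * t⁻¹)⁻¹) ^ ℓ := by
    have e1 : t * (y * (w ^ (k * c)) ^ ℓ) * t⁻¹ = (t * y * t⁻¹) * (t * w ^ (k * c) * t⁻¹) ^ ℓ := by
      rw [conj_pow]
      group
    rw [e1] at key
    have c1 : Commute ((y ^ i) * (w ^ (k' * c))) (t * w ^ (k * c) * t⁻¹)⁻¹ :=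
      hab _ (V.mul_mem (V.pow_mem hC.yV _) (V.pow_mem hC.wV _)) _ (V.inv_mem hwV)
    have c2 : Commute (y ^ i) (w ^ (k' * c)) := hyw.pow_pow _ _
    rw [c1.mul_pow, c2.mul_pow, inv_pow, ← mul_assoc, ← mul_assoc, ← key]
    group
  have hty : t * y = y * t := hC.stb t ht _
    (V.mul_mem (V.mul_mem (V.pow_mem hC.yV _) (V.pow_mem hC.wV _)) (V.inv_mem hwV)) key2
  obtain ⟨μ, hμ⟩ := hC.act t ht hty
  have e2 : t * (y ^ j * w ^ (ℓ * k)) * t⁻¹ = y ^ j * w ^ (μ * (ℓ * k)) := by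
    have a1 : t * y ^ j * t⁻¹ = y ^ j := by
      have : Commute t (y ^ j) := Commute.pow_right hty j
      rw [this.eq]
      group
    have a2 : t * w ^ (ℓ * k) * t⁻¹ = w ^ (μ * (ℓ * k)) := by
      rw [← conj_pow, hμ, ← pow_mul]
    calc t * (y ^ j * w ^ (ℓ * k)) * t⁻¹ = (t * y ^ j * t⁻¹) * (t * w ^ (ℓ * k) * t⁻¹) := by group
      _ = _ := by rw [a1, a2]
  rw [e2] at he
  obtain ⟨h1, h2⟩ := hC.uni _ _ _ _ he
  refine ⟨hty, h1, ?_, ?_⟩
  · intro hk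
    have a1 : ℓ ^ 2 ∣ μ * (ℓ * k) := by
      obtain ⟨q, rfl⟩ := hk
      exact ⟨μ * q, by ring⟩
    have a2 : ℓ ^ 2 ∣ ℓ * k' := ((Nat.ModEq.dvd_iff h2 (dvd_refl _)).1 a1)
    rw [pow_two] at a2
    exact Nat.dvd_of_mul_dvd_mul_left hp.pos a2
  · intro hk
    have a1 : ℓ ^ 2 ∣ ℓ * k' := by
      obtain ⟨q, rfl⟩ := hk
      exact ⟨q, by ring⟩
    have a2 : ℓ ^ 2 ∣ μ * (ℓ * k) := ((Nat.ModEq.dvd_iff h2 (dvd_refl _)).2 a1)
    have a3 : t * w ^ (ℓ * k) * t⁻¹ = 1 := by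
      rw [← conj_pow, hμ, ← pow_mul]
      rw [← hC.ow] at a2
      exact orderOf_dvd_iff_pow_eq_one.1 a2
    have a4 : w ^ (ℓ * k) = 1 := by
      have : w ^ (ℓ * k) = t⁻¹ * (t * w ^ (ℓ * k) * t⁻¹) * t := by group
      rw [this, a3]
      group
    have a5 : ℓ ^ 2 ∣ ℓ * k := by
      rw [← hC.ow]
      exact orderOf_dvd_iff_pow_eq_one.2 a4
    rw [pow_two] at a5
    exact Nat.dvd_of_mul_dvd_mul_left hp.pos a5

theorem part1 {ℓ : ℕ} [Fact ℓ.Prime] {F : Type} [Field F] {G : Type} [Group G] {V : Subgroup G}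
    {γ : G → F} (hab : ∀ a ∈ V, ∀ b ∈ V, a * b = b * a) {y w : G} {m : ℕ}
    (hC : Cs ℓ V γ y w m) (j k : ℕ) (hj : ¬ ℓ ∣ j) (hk : ¬ ℓ ∣ k) :
    Rg V γ (y ^ j * w ^ (ℓ * k)) := by
  have hp : ℓ.Prime := Fact.out
  refine ⟨V.mul_mem (V.pow_mem hC.yV _) (V.pow_mem hC.wV _), ?_, ?_⟩
  · intro h
    have := (hC.uni j 0 (ℓ * k) 0 (by rw [h]; simp)).1
    have h2 : ℓ ^ 2 ∣ j := (Nat.modEq_zero_iff_dvd).1 this
    exact hj ((dvd_pow_self ℓ (by norm_num)).trans h2)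
  · rintro t ⟨ht, htu⟩
    have hcomm : (y ^ j * w ^ (ℓ * k)) * t = t * (y ^ j * w ^ (ℓ * k)) :=
      Subgroup.mem_centralizer_iff.1 htu _ rfl
    have he : t * (y ^ j * w ^ (ℓ * k)) * t⁻¹ = y ^ j * w ^ (ℓ * k) := by
      rw [← hcomm]
      group
    have hty := (part2 hab hC j j k k hj rfl t ht he).1
    refine hC.fre t ht hty (ℓ * k) ?_ ?_
    · intro h
      rw [pow_two] at h
      exact hk (Nat.dvd_of_mul_dvd_mul_left hp.pos h)
    · have a1 : t * y ^ j = y ^ j * t := (Commute.pow_right (show Commute t y from hty) j).eq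
      have a2 : y ^ j * (t * w ^ (ℓ * k)) = y ^ j * (w ^ (ℓ * k) * t) := by
        rw [← mul_assoc, ← a1, mul_assoc, ← mul_assoc (y ^ j), hcomm]
      exact mul_left_cancel a2

theorem part3 {ℓ : ℕ} [Fact ℓ.Prime] {F : Type} [Field F] {G : Type} [Group G] {V : Subgroup G}
    {γ : G → F} (hab : ∀ a ∈ V, ∀ b ∈ V, a * b = b * a) {y w : G} {m : ℕ}
    (hC : Cs ℓ V γ y w m) (j k : ℕ) (hj : ¬ ℓ ∣ j) (hk : ¬ ℓ ∣ k) :
    {k' : ℕ | 1 ≤ k' ∧ k' < ℓ ∧ ∃ t ∈ Tg V γ,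
      t * (y ^ j * w ^ (ℓ * k)) * t⁻¹ = y ^ j * w ^ (ℓ * k')}.ncard = m := by
  classical
  have hp : ℓ.Prime := Fact.out
  set u : G := y ^ j * w ^ (ℓ * k) with hu
  have huV : u ∈ V := V.mul_mem (V.pow_mem hC.yV _) (V.pow_mem hC.wV _)
  have hreg := part1 hab hC j k hj hk
  set S : Set ℕ := {k' : ℕ | 1 ≤ k' ∧ k' < ℓ ∧ ∃ t ∈ Tg V γ,
      t * u * t⁻¹ = y ^ j * w ^ (ℓ * k')} with hS
  set H : Subgroup G := Tg V γ ⊓ Cu y with hH
  set K : Subgroup G := Subgroup.centralizer (V : Set G) with hK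
  have hmemCu : ∀ t : G, t ∈ Cu y ↔ t * y = y * t := by
    intro t
    rw [Subgroup.mem_centralizer_iff]
    constructor
    · intro h
      exact (h y rfl).symm
    · intro h z hz
      rw [Set.mem_singleton_iff] at hz
      subst hz
      exact h.symm
  have hex : ∀ t : H, ∃ k' : ℕ, 1 ≤ k' ∧ k' < ℓ ∧ (t : G) * u * (t : G)⁻¹ = y ^ j * w ^ (ℓ * k') := by
    rintro ⟨t, ht, hty'⟩
    have hty : t * y = y * t := (hmemCu t).1 hty'
    obtain ⟨μ, hμ⟩ := hC.act t ht hty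
    have a1 : t * y ^ j * t⁻¹ = y ^ j := by
      have : Commute t (y ^ j) := Commute.pow_right hty j
      rw [this.eq]
      group
    have a2 : t * w ^ (ℓ * k) * t⁻¹ = w ^ (ℓ * (μ * k)) := by
      rw [← conj_pow, hμ, ← pow_mul]
      congr 1
      ring
    have a3 : w ^ (ℓ * (μ * k)) = w ^ (ℓ * ((μ * k) % ℓ)) := by
      refine pow_modEq hC.ow ?_
      rw [pow_two]
      exact (Nat.ModEq.mul_left' ℓ (Nat.mod_modEq _ _).symm)
    have a4 : t * u * t⁻¹ = y ^ j * w ^ (ℓ * ((μ * k) % ℓ)) := by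
      calc t * u * t⁻¹ = (t * y ^ j * t⁻¹) * (t * w ^ (ℓ * k) * t⁻¹) := by rw [hu]; group
        _ = _ := by rw [a1, a2, a3]
    refine ⟨(μ * k) % ℓ, ?_, Nat.mod_lt _ hp.pos, a4⟩
    rcases Nat.eq_zero_or_pos ((μ * k) % ℓ) with h0 | h0
    · exfalso
      have := (part2 hab hC j j k ((μ * k) % ℓ) hj rfl t ht a4).2.2.2 (by rw [h0]; exact dvd_zero _)
      exact hk this
    · exact h0
  choose κ hκ1 hκ2 hκ3 using hex
  have hcard : Nat.card (H ⧸ K.subgroupOf H) = m := hC.ind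
  let f : (H ⧸ K.subgroupOf H) → S := fun q =>
    ⟨κ q.out, hκ1 _, hκ2 _, (q.out : G), q.out.2.1, hκ3 _⟩
  have hfb : Function.Bijective f := by
    constructor
    · intro q q' hqq
      have e1 : κ q.out = κ q'.out := congrArg Subtype.val hqq
      have e2 : (q.out : G) * u * (q.out : G)⁻¹ = (q'.out : G) * u * (q'.out : G)⁻¹ := by
        rw [hκ3, hκ3, e1]
      have e3 : (q.out : G)⁻¹ * (q'.out : G) ∈ K := by
        refine hreg.2.2 ⟨?_, ?_⟩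
        · exact (Tg V γ).mul_mem ((Tg V γ).inv_mem q.out.2.1) q'.out.2.1
        · refine Subgroup.mem_centralizer_iff.2 ?_
          intro z hz
          have hz' : z = u := hz
          subst hz'
          have e4 : u = (q.out : G)⁻¹ * ((q.out : G) * u * (q.out : G)⁻¹) * (q.out : G) := by group
          calc u * ((q.out : G)⁻¹ * (q'.out : G))
              = (q.out : G)⁻¹ * ((q.out : G) * u * (q.out : G)⁻¹) * (q'.out : G) := by group
            _ = (q.out : G)⁻¹ * ((q'.out : G) * u * (q'.out : G)⁻¹) * (q'.out : G) := by rw [e2]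
            _ = ((q.out : G)⁻¹ * (q'.out : G)) * u := by group
      rw [← QuotientGroup.out_eq' q, ← QuotientGroup.out_eq' q']
      rw [QuotientGroup.eq]
      exact e3
    · rintro ⟨k', h1, h2, t, ht, hte⟩
      have hty := (part2 hab hC j j k k' hj rfl t ht hte).1
      let tH : H := ⟨t, ht, (hmemCu t).2 hty⟩
      refine ⟨(tH : H ⧸ K.subgroupOf H), ?_⟩
      apply Subtype.ext
      show κ (Quotient.out (tH : H ⧸ K.subgroupOf H)) = k'
      obtain ⟨c, hc⟩ := QuotientGroup.mk_out_eq_mul (K.subgroupOf H) tH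
      have hcK : ((c : H) : G) ∈ K := c.2
      have e1 := hκ3 (Quotient.out (tH : H ⧸ K.subgroupOf H))
      rw [hc] at e1
      have e5 : ((tH * (c : H) : H) : G) = t * ((c : H) : G) := rfl
      rw [e5] at e1
      have e6 : u * ((c : H) : G) = ((c : H) : G) * u := Subgroup.mem_centralizer_iff.1 hcK u huV
      have e7 : t * ((c : H) : G) * u * (t * ((c : H) : G))⁻¹ = t * u * t⁻¹ := by
        rw [mul_assoc t, ← e6]
        group
      rw [e7, hte] at e1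
      have e8 := (hC.uni _ _ _ _ e1).2
      rw [pow_two] at e8
      have e9 : k' ≡ κ (tH * (c : H)) [MOD ℓ] := Nat.ModEq.mul_left_cancel' hp.pos.ne' e8
      rw [hc]
      have e10 := hκ2 (tH * (c : H))
      unfold Nat.ModEq at e9
      rw [Nat.mod_eq_of_lt h2, Nat.mod_eq_of_lt e10] at e9
      exact e9.symm
  have := Nat.card_congr (Equiv.ofBijective f hfb)
  rw [hcard] at this
  rw [this]
  rfl

theorem crg : CrgStmt := by
  intro ℓ _ F _ _ _ G _ _ e V γ hL y w m hC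
  refine ⟨fun j k hj hk => part1 hL.ab hC j k hj hk, ?_, fun j k hj hk => part3 hL.ab hC j k hj hk⟩
  intro j j' k k' hj hjj t ht he
  exact part2 hL.ab hC j j' k k' hj hjj t ht he

end Pool.Agent.PP.T12.H67
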